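import Mathlib

open Filter Topology Set ZeroAtInfty

/-!
# A Banach space with a Schauder decomposition but without a normal one

The space is `c_0(I)`, `I = Γ ∪ {*}`, where `Γ` is a Hamel basis of `ℝ` over `ℚ` (used as an
uncountable set of reals in which all distances are different), with the equivalent norm

  `max (|x_*|, sup |x_δ + x_{π δ} / 10|, sup |w(δ, δ') (x_δ + x_δ') + x_* / 10|)`,

`w(δ, δ') = 3/5 + (1/10) / (1 + |δ - δ'|)`, and `π : Γ → Γ` with all fibres uncountable.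
-/

namespace Pool.Agent.Helper961.NormalDec

section Basics

variable {I : Type} [TopologicalSpace I] [DiscreteTopology I]

omit [DiscreteTopology I] in
theorem coord_le (x : C₀(I, ℝ)) (i : I) : |x i| ≤ ‖x‖ := by
  rw [← ZeroAtInftyContinuousMap.norm_toBCF_eq_norm]
  exact x.toBCF.norm_coe_le_norm i

omit [DiscreteTopology I] in
theorem norm_le_of {x : C₀(I, ℝ)} {C : ℝ} (hC : 0 ≤ C) (h : ∀ i, |x i| ≤ C) : ‖x‖ ≤ C := by
  rw [← ZeroAtInftyContinuousMap.norm_toBCF_eq_norm, BoundedContinuousFunction.norm_le hC]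
  exact h

theorem finite_ge (x : C₀(I, ℝ)) {ε : ℝ} (hε : 0 < ε) : {i | ε ≤ |x i|}.Finite := by
  have h := ZeroAtInftyContinuousMapClass.zero_at_infty x
  rw [Filter.cocompact_eq_cofinite, Metric.tendsto_nhds] at h
  have h1 := h ε hε
  rw [Filter.eventually_cofinite] at h1
  refine h1.subset (fun i hi => ?_)
  simp only [Set.mem_ofPred_eq, Real.dist_eq, sub_zero, not_lt]
  exact hi

/-- Build an element of `c_0(I)`. -/
def mk (f : I → ℝ) (hf : ∀ ε : ℝ, 0 < ε → {i | ε ≤ |f i|}.Finite) : C₀(I, ℝ) where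
  toFun := f
  continuous_toFun := continuous_of_discreteTopology
  zero_at_infty' := by
    rw [Filter.cocompact_eq_cofinite, Metric.tendsto_nhds]
    intro ε hε
    rw [Filter.eventually_cofinite]
    refine (hf ε hε).subset (fun i hi => ?_)
    simpa [Real.dist_eq] using hi

@[simp] theorem mk_apply (f : I → ℝ) (hf : ∀ ε : ℝ, 0 < ε → {i | ε ≤ |f i|}.Finite) (i : I) :
    mk f hf i = f i := rfl

theorem countable_support (x : C₀(I, ℝ)) : {i | x i ≠ 0}.Countable := by
  have h : {i | x i ≠ 0} ⊆ ⋃ n : ℕ, {i | 1 / ((n : ℝ) + 1) ≤ |x i|} := by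
    intro i hi
    obtain ⟨n, hn⟩ := exists_nat_one_div_lt (abs_pos.2 hi)
    exact mem_iUnion.2 ⟨n, hn.le⟩
  exact (countable_iUnion (fun n => (finite_ge x (by positivity)).countable)).mono h

open Classical in
/-- Unit vectors. -/
noncomputable def ev (i : I) : C₀(I, ℝ) :=
  mk (fun j => if j = i then 1 else 0) (by
    intro ε hε
    refine (Set.finite_singleton i).subset (fun j hj => ?_)
    by_contra hne
    simp only [Set.mem_singleton_iff] at hne
    simp only [Set.mem_ofPred_eq, hne, if_false, abs_zero] at hj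
    exact absurd hj (not_le.2 hε))

theorem ev_self (i : I) : ev i i = 1 := by simp [ev]

theorem ev_ne {i j : I} (h : j ≠ i) : ev i j = 0 := by simp [ev, h]

theorem ev_ne_zero (i : I) : ev i ≠ 0 := by
  intro h
  have h1 := ev_self i
  rw [h] at h1
  simp at h1

theorem col_countable (φ : C₀(I, ℝ) →ₗ[ℝ] ℝ) (C : ℝ) (hC : 0 ≤ C)
    (h : ∀ x, |φ x| ≤ C * ‖x‖) :
    {i | φ (ev i) ≠ 0}.Countable := by
  classical
  have hsum : Summable (fun i => |φ (ev i)|) := by
    refine summable_of_sum_le (c := C) (fun i => abs_nonneg _) (fun F => ?_)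
    let x : C₀(I, ℝ) := ∑ i ∈ F, (SignType.sign (φ (ev i)) : ℝ) • ev i
    have hx : ∀ j, x j = if j ∈ F then (SignType.sign (φ (ev j)) : ℝ) else 0 := by
      intro j
      have h1 : x j = ∑ i ∈ F, (SignType.sign (φ (ev i)) : ℝ) * ev i j := by
        have h2 : ∀ G : Finset I, (∑ i ∈ G, (SignType.sign (φ (ev i)) : ℝ) • ev i : C₀(I, ℝ)) j =
            ∑ i ∈ G, (SignType.sign (φ (ev i)) : ℝ) * ev i j := by
          intro G
          induction G using Finset.induction_on with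
          | empty => simp
          | insert a s ha ih =>
            rw [Finset.sum_insert ha, Finset.sum_insert ha, ZeroAtInftyContinuousMap.add_apply, ih,
              ZeroAtInftyContinuousMap.smul_apply, smul_eq_mul]
        exact h2 F
      rw [h1]
      by_cases hj : j ∈ F
      · rw [if_pos hj, Finset.sum_eq_single j]
        · rw [ev_self, mul_one]
        · intro i _ hij
          rw [ev_ne (Ne.symm hij), mul_zero]
        · exact fun h => absurd hj h
      · rw [if_neg hj]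
        refine Finset.sum_eq_zero (fun i hi => ?_)
        have : j ≠ i := fun h => hj (h ▸ hi)
        rw [ev_ne this, mul_zero]
    have hx1 : ‖x‖ ≤ 1 := by
      refine norm_le_of zero_le_one (fun j => ?_)
      rw [hx]
      split_ifs with hj
      · rcases lt_trichotomy (φ (ev j)) 0 with h0 | h0 | h0 <;> simp [h0]
      · simp
    have hφ : φ x = ∑ i ∈ F, |φ (ev i)| := by
      simp only [x, map_sum, map_smul, smul_eq_mul]
      exact Finset.sum_congr rfl (fun i _ => by rw [sign_mul_self])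
    have h3 := h x
    rw [hφ] at h3
    calc ∑ i ∈ F, |φ (ev i)| ≤ abs (∑ i ∈ F, |φ (ev i)|) := le_abs_self _
      _ ≤ C * ‖x‖ := h3
      _ ≤ C * 1 := mul_le_mul_of_nonneg_left hx1 hC
      _ = C := mul_one C
  refine hsum.countable_support.mono (fun i hi => ?_)
  simpa using hi

end Basics


/-- Index set of the coordinates. -/
inductive Ix (Γ : Type) : Type
  | star : Ix Γ
  | pt (δ : Γ) : Ix Γ

/-- Index set of the functionals defining the norm. -/
inductive Fn (Γ : Type) : Type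
  | star : Fn Γ
  | pt (δ : Γ) : Fn Γ
  | pair (α β : Γ) : Fn Γ

instance (Γ : Type) : TopologicalSpace (Ix Γ) := ⊥
instance (Γ : Type) : DiscreteTopology (Ix Γ) := ⟨rfl⟩
instance (Γ : Type) : TopologicalSpace (Fn Γ) := ⊥
instance (Γ : Type) : DiscreteTopology (Fn Γ) := ⟨rfl⟩

section Norm

variable {Γ : Type} (r : Γ → ℝ) (π : Γ → Γ)

open Classical in
/-- The weights. -/
noncomputable def W (α β : Γ) : ℝ := if α = β then 0 else 3 / 5 + (1 / 10) / (1 + |r α - r β|)

theorem W_le (α β : Γ) : W r α β ≤ 7 / 10 := by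
  unfold W
  split_ifs
  · norm_num
  · have h1 : (1 / 10 : ℝ) / (1 + |r α - r β|) ≤ 1 / 10 := by
      apply div_le_self (by norm_num)
      have := abs_nonneg (r α - r β)
      linarith
    linarith

theorem W_nonneg (α β : Γ) : 0 ≤ W r α β := by
  unfold W
  split_ifs
  · exact le_rfl
  · positivity

theorem W_lt {α β α' β' : Γ} (h' : α' ≠ β') (hd : α ≠ β → |r α' - r β'| < |r α - r β|) :
    W r α β < W r α' β' := by
  unfold W
  rw [if_neg h']
  split_ifs with h
  · positivity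
  · have h1 := hd h
    have h2 := abs_nonneg (r α' - r β')
    have h3 : (1 / 10 : ℝ) / (1 + |r α - r β|) < (1 / 10) / (1 + |r α' - r β'|) := by
      apply div_lt_div_of_pos_left (by norm_num) (by positivity)
      linarith
    linarith

/-- The functionals defining the norm. -/
noncomputable def fn (x : C₀(Ix Γ, ℝ)) : Fn Γ → ℝ
  | .star => x .star
  | .pt δ => x (.pt δ) + (1 / 10) * x (.pt (π δ))
  | .pair α β => W r α β * (x (.pt α) + x (.pt β)) + (1 / 10) * x .star

theorem fn_add (x y : C₀(Ix Γ, ℝ)) (j : Fn Γ) : fn r π (x + y) j = fn r π x j + fn r π y j := by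
  cases j <;> simp only [fn, ZeroAtInftyContinuousMap.add_apply] <;> ring

theorem fn_smul (c : ℝ) (x : C₀(Ix Γ, ℝ)) (j : Fn Γ) : fn r π (c • x) j = c * fn r π x j := by
  cases j <;> simp only [fn, ZeroAtInftyContinuousMap.smul_apply, smul_eq_mul] <;> ring

theorem fn_le (x : C₀(Ix Γ, ℝ)) (j : Fn Γ) : |fn r π x j| ≤ 2 * ‖x‖ := by
  have h0 := norm_nonneg x
  cases j with
  | star =>
    have := coord_le x .star
    simp only [fn]
    linarith
  | pt δ =>
    have h1 := coord_le x (.pt δ)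
    have h2 := coord_le x (.pt (π δ))
    simp only [fn]
    rw [abs_le] at *
    constructor <;> linarith [h1.1, h1.2, h2.1, h2.2]
  | pair α β =>
    have h1 := coord_le x (.pt α)
    have h2 := coord_le x (.pt β)
    have h3 := coord_le x .star
    simp only [fn]
    have h4 := W_le r α β
    have h5 := W_nonneg r α β
    calc |W r α β * (x (.pt α) + x (.pt β)) + (1 / 10) * x .star|
        ≤ |W r α β * (x (.pt α) + x (.pt β))| + |(1 / 10) * x .star| := abs_add_le _ _
      _ = W r α β * |x (.pt α) + x (.pt β)| + (1 / 10) * |x .star| := by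
          rw [abs_mul, abs_mul, abs_of_nonneg h5, abs_of_nonneg (by norm_num : (0 : ℝ) ≤ 1 / 10)]
      _ ≤ (7 / 10) * (‖x‖ + ‖x‖) + (1 / 10) * ‖x‖ := by
          gcongr
          exact (abs_add_le _ _).trans (add_le_add h1 h2)
      _ ≤ 2 * ‖x‖ := by linarith

/-- The map to bounded functions that defines the norm. -/
noncomputable def T : C₀(Ix Γ, ℝ) →ₗ[ℝ] (BoundedContinuousFunction (Fn Γ) ℝ) where
  toFun x := BoundedContinuousFunction.ofNormedAddCommGroupDiscrete (fn r π x) (2 * ‖x‖)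
    (fn_le r π x)
  map_add' x y := by
    ext j
    exact fn_add r π x y j
  map_smul' c x := by
    ext j
    exact fn_smul r π c x j

theorem T_apply (x : C₀(Ix Γ, ℝ)) (j : Fn Γ) : T r π x j = fn r π x j := rfl

theorem T_upper (x : C₀(Ix Γ, ℝ)) : ‖T r π x‖ ≤ 2 * ‖x‖ := by
  rw [BoundedContinuousFunction.norm_le (by positivity)]
  exact fn_le r π x

theorem T_lower (x : C₀(Ix Γ, ℝ)) : ‖x‖ ≤ 2 * ‖T r π x‖ := by
  have h0 := norm_nonneg x
  have h1 : ‖x‖ ≤ ‖T r π x‖ + (1 / 10) * ‖x‖ := by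
    refine norm_le_of (by positivity) (fun i => ?_)
    cases i with
    | star =>
      have := (T r π x).norm_coe_le_norm .star
      rw [T_apply, Real.norm_eq_abs] at this
      simp only [fn] at this
      linarith
    | pt δ =>
      have h2 := (T r π x).norm_coe_le_norm (.pt δ)
      rw [T_apply, Real.norm_eq_abs] at h2
      simp only [fn] at h2
      have h3 := coord_le x (.pt (π δ))
      rw [abs_le] at *
      constructor <;> linarith [h2.1, h2.2, h3.1, h3.2]
  linarith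

theorem key {z y : C₀(Ix Γ, ℝ)} {m c0 b : ℝ} (hm : 0 < m) (hc : c0 < m) (hb : b ≠ 0)
    (h : ∀ j, |fn r π z j| ≤ c0 ∨ (fn r π z j = m ∧ fn r π y j = b)) :
    ∃ t : ℝ, ‖T r π (z + t • y)‖ < m := by
  have hK : 0 < 2 * ‖y‖ + 1 := by positivity
  have hb' : 0 < |b| := abs_pos.2 hb
  obtain ⟨ε, hε, h1, h2⟩ : ∃ ε : ℝ, 0 < ε ∧ ε * (2 * ‖y‖ + 1) ≤ (m - c0) / 2 ∧ ε * |b| ≤ m := by
    refine ⟨min ((m - c0) / 2 / (2 * ‖y‖ + 1)) (m / |b|), ?_, ?_, ?_⟩
    · apply lt_min
      · apply div_pos (by linarith) hK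
      · exact div_pos hm hb'
    · rw [← le_div_iff₀ hK]
      exact min_le_left _ _
    · rw [← le_div_iff₀ hb']
      exact min_le_right _ _
  obtain ⟨t, ht1, ht2⟩ : ∃ t : ℝ, |t| = ε ∧ t * b = -(ε * |b|) := by
    rcases lt_or_gt_of_ne hb with h3 | h3
    · exact ⟨ε, abs_of_pos hε, by rw [abs_of_neg h3]; ring⟩
    · exact ⟨-ε, by rw [abs_neg, abs_of_pos hε], by rw [abs_of_pos h3]; ring⟩
  refine ⟨t, lt_of_le_of_lt (b := max ((c0 + m) / 2) (m - ε * |b|)) ?_ ?_⟩
  · rw [BoundedContinuousFunction.norm_le (le_max_of_le_right (by linarith))]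
    intro j
    rw [T_apply, fn_add, fn_smul, Real.norm_eq_abs]
    rcases h j with h3 | ⟨h3, h4⟩
    · apply le_max_of_le_left
      calc |fn r π z j + t * fn r π y j| ≤ |fn r π z j| + |t * fn r π y j| := abs_add_le _ _
        _ ≤ c0 + ε * (2 * ‖y‖ + 1) := by
          rw [abs_mul, ht1]
          gcongr
          linarith [fn_le r π y j]
        _ ≤ (c0 + m) / 2 := by linarith
    · apply le_max_of_le_right
      rw [h3, h4, ht2, abs_of_nonneg (by linarith)]
      linarith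
  · apply max_lt
    · linarith
    · have := mul_pos hε hb'
      linarith

theorem key' (P : C₀(Ix Γ, ℝ) →ₗ[ℝ] C₀(Ix Γ, ℝ)) (hN : ∀ x, ‖T r π (P x)‖ ≤ ‖T r π x‖)
    {z y : C₀(Ix Γ, ℝ)} (hz : P z = z) (hy : P y = 0) {m c0 b : ℝ} (hm : 0 < m) (hc : c0 < m)
    (hb : b ≠ 0) (h : ∀ j, |fn r π z j| ≤ c0 ∨ (fn r π z j = m ∧ fn r π y j = b))
    (hj : ∃ j, fn r π z j = m) : False := by
  obtain ⟨t, ht⟩ := key r π hm hc hb h
  obtain ⟨j, hj⟩ := hj
  have h1 := hN (z + t • y)
  rw [map_add, map_smul, hz, hy, smul_zero, add_zero] at h1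
  have h2 := (T r π z).norm_coe_le_norm j
  rw [T_apply, hj, Real.norm_eq_abs, abs_of_pos hm] at h2
  linarith

end Norm


theorem exists_lt_bound {α : Type} {S : Set α} (hS : S.Finite) (f : α → ℝ) (w : ℝ)
    (h : ∀ s ∈ S, f s < w) : ∃ c, c < w ∧ ∀ s ∈ S, f s ≤ c := by
  rcases S.eq_empty_or_nonempty with h0 | h0
  · subst h0
    exact ⟨w - 1, by linarith, by simp⟩
  · obtain ⟨a, ha, hmax⟩ := Set.exists_max_image S f hS h0
    exact ⟨f a, h a ha, hmax⟩

section Pigeon

variable {Γ : Type} (r : Γ → ℝ) (π : Γ → Γ)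

/-- The class of a normalised vector. -/
def Q (u : C₀(Ix Γ, ℝ)) (n : ℕ) (k : ℤ) : Prop :=
  0 < n ∧ (∃ δ, |u (.pt δ)| = 1 ∧ ⌊(n : ℝ) * r δ⌋ = k) ∧
  (∀ α β, |u (.pt α)| = 1 → |u (.pt β)| = 1 → α ≠ β → 1 / (n : ℝ) < |r α - r β|) ∧
  (∃ τ, (∀ j, |u j| = 1 ∨ |u j| ≤ τ) ∧ 0 ≤ τ ∧ (7 / 10) * (1 + τ) < 6 / 5 + (1 / 5) / (1 + 1 / (n : ℝ)))

theorem exists_tau (u : C₀(Ix Γ, ℝ)) (hu : ‖u‖ = 1) :
    ∃ τ, 0 ≤ τ ∧ τ < 1 ∧ ∀ j, |u j| = 1 ∨ |u j| ≤ τ := by
  obtain ⟨c, hc, hcS⟩ := exists_lt_bound (S := {j | 1 / 2 ≤ |u j| ∧ |u j| ≠ 1})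
    ((finite_ge u (by norm_num : (0 : ℝ) < 1 / 2)).subset (fun j hj => hj.1)) (fun j => |u j|) 1
    (fun j hj => lt_of_le_of_ne (hu ▸ coord_le u j) hj.2)
  refine ⟨max (1 / 2) c, le_max_of_le_left (by norm_num), max_lt (by norm_num) hc, fun j => ?_⟩
  by_cases h1 : |u j| = 1
  · exact Or.inl h1
  · right
    by_cases h2 : 1 / 2 ≤ |u j|
    · exact le_max_of_le_right (hcS j ⟨h2, h1⟩)
    · exact le_max_of_le_left (not_le.1 h2).le

theorem exists_Q (hr : Function.Injective r) (u : C₀(Ix Γ, ℝ)) (hu : ‖u‖ = 1)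
    (hstar : u .star = 0) : ∃ n k, Q r u n k := by
  obtain ⟨τ, hτ0, hτ1, hτ⟩ := exists_tau u hu
  obtain ⟨δ, hδ⟩ : ∃ δ, |u (.pt δ)| = 1 := by
    by_contra hcon
    push Not at hcon
    have h1 : ‖u‖ ≤ τ := by
      refine norm_le_of hτ0 (fun i => ?_)
      cases i with
      | star => rw [hstar, abs_zero]; exact hτ0
      | pt δ => exact (hτ _).resolve_left (hcon δ)
    linarith
  have hfin : {α : Γ | |u (.pt α)| = 1}.Finite := by
    have h1 := finite_ge u (by norm_num : (0 : ℝ) < 1)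
    refine (h1.preimage (f := Ix.pt) ?_).subset ?_
    · intro a _ b _ hab
      exact Ix.pt.inj hab
    · intro α hα
      exact (le_of_eq hα.symm : (1 : ℝ) ≤ |u (.pt α)|)
  obtain ⟨c, hc, hcS⟩ := exists_lt_bound (S := {p : Γ × Γ | (p.1 ∈ {α : Γ | |u (.pt α)| = 1} ∧
      p.2 ∈ {α : Γ | |u (.pt α)| = 1}) ∧ p.1 ≠ p.2})
    ((hfin.prod hfin).subset (fun p hp => hp.1)) (fun p => -|r p.1 - r p.2|) 0 (by
      intro p hp
      have : r p.1 - r p.2 ≠ 0 := sub_ne_zero.2 (fun h => hp.2 (hr h))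
      have := abs_pos.2 this
      linarith)
  -- a large integer
  have h1 : Tendsto (fun n : ℕ => 1 / ((n : ℝ) + 1)) atTop (𝓝 0) := tendsto_one_div_add_atTop_nhds_zero_nat
  have h2 : Tendsto (fun n : ℕ => 6 / 5 + (1 / 5) / (1 + 1 / ((n : ℝ) + 1))) atTop
      (𝓝 (6 / 5 + (1 / 5) / (1 + 0))) := by
    refine tendsto_const_nhds.add (Tendsto.div tendsto_const_nhds (tendsto_const_nhds.add h1) ?_)
    norm_num
  have h3 : ∀ᶠ n : ℕ in atTop, 1 / ((n : ℝ) + 1) < -c := h1.eventually_lt_const (by linarith)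
  have h4 : ∀ᶠ n : ℕ in atTop, (7 / 10) * (1 + τ) < 6 / 5 + (1 / 5) / (1 + 1 / ((n : ℝ) + 1)) :=
    h2.eventually_const_lt (by norm_num; linarith)
  obtain ⟨n, hn3, hn4⟩ := (h3.and h4).exists
  refine ⟨n + 1, ⌊((n + 1 : ℕ) : ℝ) * r δ⌋, Nat.succ_pos n, ⟨δ, hδ, rfl⟩, ?_, τ, hτ, hτ0, ?_⟩
  · intro α β hα hβ hne
    have h5 := hcS (α, β) ⟨⟨hα, hβ⟩, hne⟩
    push_cast
    simp only at h5
    linarith
  · push_cast
    exact hn4

theorem two_vectors
    (hd : ∀ α β α' β', α ≠ β → |r α - r β| = |r α' - r β'| →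
      (α' = α ∧ β' = β) ∨ (α' = β ∧ β' = α))
    (P : C₀(Ix Γ, ℝ) →ₗ[ℝ] C₀(Ix Γ, ℝ)) (hN : ∀ x, ‖T r π (P x)‖ ≤ ‖T r π x‖)
    {u u' y : C₀(Ix Γ, ℝ)} (hu : P u = u) (hu' : P u' = u') (hy : P y = 0)
    (h1 : ∀ j, u j = 0 ∨ u' j = 0) (h2 : ∀ j, y j = 0 ∨ (u j = 0 ∧ u' j = 0))
    (h3 : u .star = 0) (h4 : u' .star = 0) (h5 : ‖u‖ ≤ 1) (h6 : ‖u'‖ ≤ 1) {n : ℕ} {k : ℤ}
    (hQ : Q r u n k) (hQ' : Q r u' n k) : y .star = 0 := by
  by_contra hy0
  obtain ⟨hn, ⟨δ₀, hδ₀, hk⟩, hsep, τ, hτ, hτ0, hτn⟩ := hQ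
  obtain ⟨-, ⟨δ₀', hδ₀', hk'⟩, hsep', τ', hτ', hτ0', hτn'⟩ := hQ'
  have hn' : (0 : ℝ) < n := by exact_mod_cast hn
  have hfin : ∀ v : C₀(Ix Γ, ℝ), {α : Γ | |v (.pt α)| = 1}.Finite := by
    intro v
    refine ((finite_ge v (by norm_num : (0 : ℝ) < 1)).preimage (f := Ix.pt) ?_).subset ?_
    · intro a _ b _ hab
      exact Ix.pt.inj hab
    · intro α hα
      exact (le_of_eq hα.symm : (1 : ℝ) ≤ |v (.pt α)|)
  obtain ⟨⟨δ, δ'⟩, ⟨hδ, hδ'⟩, hmin⟩ := Set.exists_min_image
    ({α : Γ | |u (.pt α)| = 1} ×ˢ {α : Γ | |u' (.pt α)| = 1}) (fun p => |r p.1 - r p.2|)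
    ((hfin u).prod (hfin u')) ⟨(δ₀, δ₀'), hδ₀, hδ₀'⟩
  simp only [Set.mem_ofPred_eq] at hδ hδ'
  have hne : δ ≠ δ' := by
    rintro rfl
    rcases h1 (.pt δ) with h | h
    · rw [h] at hδ; norm_num at hδ
    · rw [h] at hδ'; norm_num at hδ'
  have hdn : |r δ - r δ'| < 1 / (n : ℝ) := by
    have h7 := hmin (δ₀, δ₀') ⟨hδ₀, hδ₀'⟩
    simp only at h7
    have h8 := Int.abs_sub_lt_one_of_floor_eq_floor (hk.trans hk'.symm)
    rw [← mul_sub, abs_mul, abs_of_pos hn'] at h8
    rw [lt_div_iff₀ hn']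
    nlinarith
  -- the vector `z`
  have hu0 : u' (.pt δ) = 0 := by
    rcases h1 (.pt δ) with h | h
    · rw [h] at hδ; norm_num at hδ
    · exact h
  have hu0' : u (.pt δ') = 0 := by
    rcases h1 (.pt δ') with h | h
    · exact h
    · rw [h] at hδ'; norm_num at hδ'
  set z : C₀(Ix Γ, ℝ) := (u (.pt δ)) • u + (u' (.pt δ')) • u' with hz
  have hzj : ∀ j, z j = u (.pt δ) * u j + u' (.pt δ') * u' j := fun j => by
    rw [hz]
    simp
  have hsq : ∀ a : ℝ, |a| = 1 → a * a = 1 := by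
    intro a ha
    rw [← abs_mul_abs_self, ha, one_mul]
  have hzδ : z (.pt δ) = 1 := by
    rw [hzj, hu0, mul_zero, add_zero, hsq _ hδ]
  have hzδ' : z (.pt δ') = 1 := by
    rw [hzj, hu0', mul_zero, zero_add, hsq _ hδ']
  have hzs : z .star = 0 := by rw [hzj, h3, h4]; ring
  have hPz : P z = z := by rw [hz, map_add, map_smul, map_smul, hu, hu']
  have habs : ∀ j, |z j| = |u j| ∨ |z j| = |u' j| := by
    intro j
    rcases h1 j with h | h
    · right
      rw [hzj, h, mul_zero, zero_add, abs_mul, hδ', one_mul]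
    · left
      rw [hzj, h, mul_zero, add_zero, abs_mul, hδ, one_mul]
  have hz1 : ∀ j, |z j| ≤ 1 := by
    intro j
    rcases habs j with h | h
    · rw [h]; exact (coord_le u j).trans h5
    · rw [h]; exact (coord_le u' j).trans h6
  have hzfin : {α : Γ | |z (.pt α)| = 1}.Finite := hfin z
  have hWs : W r δ' δ = W r δ δ' := by
    unfold W
    rw [if_neg hne, if_neg hne.symm, abs_sub_comm]
  have hWm : 2 * W r δ δ' = 6 / 5 + (1 / 5) / (1 + |r δ - r δ'|) := by
    unfold W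
    rw [if_neg hne]
    ring
  have hWbig : 6 / 5 + (1 / 5) / (1 + 1 / (n : ℝ)) < 2 * W r δ δ' := by
    rw [hWm]
    have h7 := abs_nonneg (r δ - r δ')
    have h8 : (1 / 5 : ℝ) / (1 + 1 / (n : ℝ)) < (1 / 5) / (1 + |r δ - r δ'|) := by
      apply div_lt_div_of_pos_left (by norm_num) (by positivity)
      linarith
    linarith
  have hW65 : 6 / 5 < 2 * W r δ δ' := by
    have : (0 : ℝ) < (1 / 5) / (1 + 1 / (n : ℝ)) := by positivity
    linarith
  obtain ⟨c1, hc1, hcS⟩ := exists_lt_bound (S := {p : Γ × Γ | (p.1 ∈ {α : Γ | |z (.pt α)| = 1} ∧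
      p.2 ∈ {α : Γ | |z (.pt α)| = 1}) ∧ ¬ ((p.1 = δ ∧ p.2 = δ') ∨ (p.1 = δ' ∧ p.2 = δ))})
    ((hzfin.prod hzfin).subset (fun p hp => hp.1)) (fun p => W r p.1 p.2) (W r δ δ') (by
      rintro ⟨α, β⟩ ⟨⟨hα, hβ⟩, hnot⟩
      simp only [Set.mem_ofPred_eq] at hα hβ hnot
      apply W_lt r hne
      intro hαβ
      have hcross : ∀ α β, |u (.pt α)| = 1 → |u' (.pt β)| = 1 →
          ¬ ((α = δ ∧ β = δ') ∨ (α = δ' ∧ β = δ)) → |r δ - r δ'| < |r α - r β| := by
        intro α β hα hβ hnot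
        refine lt_of_le_of_ne (hmin (α, β) ⟨hα, hβ⟩) (fun heq => ?_)
        exact hnot (hd δ δ' α β hne heq)
      rcases habs (.pt α) with ha | ha <;> rcases habs (.pt β) with hb | hb
      · rw [ha] at hα; rw [hb] at hβ
        exact hdn.trans (hsep α β hα hβ hαβ)
      · rw [ha] at hα; rw [hb] at hβ
        exact hcross α β hα hβ hnot
      · rw [ha] at hα; rw [hb] at hβ
        rw [abs_sub_comm (r α)]
        refine hcross β α hβ hα (fun h => hnot ?_)
        rcases h with ⟨h, h'⟩ | ⟨h, h'⟩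
        · exact Or.inr ⟨h', h⟩
        · exact Or.inl ⟨h', h⟩
      · rw [ha] at hα; rw [hb] at hβ
        exact hdn.trans (hsep' α β hα hβ hαβ))
  refine key' r π P hN hPz hy (m := 2 * W r δ δ')
    (c0 := max (max (6 / 5) (2 * c1)) ((7 / 10) * (1 + max τ τ'))) (b := (1 / 10) * y .star)
    (by linarith) ?_ (by simpa using hy0) ?_ ⟨.pair δ δ', ?_⟩
  · refine max_lt (max_lt hW65 (by linarith)) ?_
    rcases le_total τ τ' with h | h
    · rw [max_eq_right h]; linarith
    · rw [max_eq_left h]; linarith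
  · intro j
    cases j with
    | star =>
      left
      simp only [fn]
      rw [hzs, abs_zero]
      exact le_max_of_le_left (le_max_of_le_left (by norm_num))
    | pt α =>
      left
      simp only [fn]
      refine le_max_of_le_left (le_max_of_le_left ?_)
      have h7 := hz1 (.pt α)
      have h8 := hz1 (.pt (π α))
      rw [abs_le] at *
      constructor <;> linarith [h7.1, h7.2, h8.1, h8.2]
    | pair α β =>
      by_cases hcase : (α = δ ∧ β = δ') ∨ (α = δ' ∧ β = δ)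
      · right
        have hy1 : y (.pt δ) = 0 := by
          rcases h2 (.pt δ) with h | h
          · exact h
          · rw [h.1] at hδ; norm_num at hδ
        have hy2 : y (.pt δ') = 0 := by
          rcases h2 (.pt δ') with h | h
          · exact h
          · rw [h.2] at hδ'; norm_num at hδ'
        rcases hcase with ⟨rfl, rfl⟩ | ⟨rfl, rfl⟩
        · simp only [fn]
          rw [hzδ, hzδ', hzs, hy1, hy2]
          constructor <;> ring
        · simp only [fn]
          rw [hzδ, hzδ', hzs, hy1, hy2, hWs]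
          constructor <;> ring
      · left
        simp only [fn]
        rw [hzs, mul_zero, add_zero, abs_mul, abs_of_nonneg (W_nonneg r α β)]
        have hW0 := W_nonneg r α β
        have hW7 := W_le r α β
        have htri : |z (.pt α) + z (.pt β)| ≤ |z (.pt α)| + |z (.pt β)| := abs_add_le _ _
        have hτmax : ∀ j, |z j| = 1 ∨ |z j| ≤ max τ τ' := by
          intro j
          rcases habs j with h | h
          · rw [h]
            exact (hτ j).imp id (fun h => h.trans (le_max_left _ _))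
          · rw [h]
            exact (hτ' j).imp id (fun h => h.trans (le_max_right _ _))
        have hbound : ∀ s : ℝ, |z (.pt α)| + |z (.pt β)| ≤ 1 + s → 0 ≤ s →
            W r α β * |z (.pt α) + z (.pt β)| ≤ (7 / 10) * (1 + s) := by
          intro s hs hs0
          calc W r α β * |z (.pt α) + z (.pt β)| ≤ (7 / 10) * |z (.pt α) + z (.pt β)| := by gcongr
            _ ≤ (7 / 10) * (1 + s) := by
              gcongr
              exact htri.trans hs
        by_cases hα : |z (.pt α)| = 1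
        · by_cases hβ : |z (.pt β)| = 1
          · refine le_max_of_le_left (le_max_of_le_right ?_)
            have h7 := hcS (α, β) ⟨⟨hα, hβ⟩, hcase⟩
            simp only at h7
            calc W r α β * |z (.pt α) + z (.pt β)| ≤ W r α β * 2 := by
                  gcongr
                  rw [hα, hβ] at htri
                  linarith
              _ ≤ 2 * c1 := by linarith
          · refine le_max_of_le_right (hbound _ ?_ (le_max_of_le_left hτ0))
            have h7 := (hτmax (.pt β)).resolve_left hβ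
            linarith
        · refine le_max_of_le_right (hbound _ ?_ (le_max_of_le_left hτ0))
          have h7 := (hτmax (.pt α)).resolve_left hα
          have h8 := hz1 (.pt β)
          linarith
  · simp only [fn]
    rw [hzδ, hzδ', hzs]
    ring

theorem star_eq_zero (hr : Function.Injective r)
    (hd : ∀ α β α' β', α ≠ β → |r α - r β| = |r α' - r β'| →
      (α' = α ∧ β' = β) ∨ (α' = β ∧ β' = α))
    (P : C₀(Ix Γ, ℝ) →ₗ[ℝ] C₀(Ix Γ, ℝ)) (hN : ∀ x, ‖T r π (P x)‖ ≤ ‖T r π x‖)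
    (hPP : ∀ x, P (P x) = P x) (hU : ¬ {i | P (ev i) ≠ 0}.Countable) {y : C₀(Ix Γ, ℝ)}
    (hy : P y = 0) : y .star = 0 := by
  have hcol : ∀ j, {i | P (ev i) j ≠ 0}.Countable := by
    intro j
    let φ : C₀(Ix Γ, ℝ) →ₗ[ℝ] ℝ :=
      { toFun := fun x => P x j
        map_add' := fun x y => by rw [map_add, ZeroAtInftyContinuousMap.add_apply]
        map_smul' := fun c x => by
          rw [map_smul, ZeroAtInftyContinuousMap.smul_apply, RingHom.id_apply] }
    refine col_countable φ 4 (by norm_num) (fun x => ?_)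
    calc |P x j| ≤ ‖P x‖ := coord_le _ _
      _ ≤ 2 * ‖T r π (P x)‖ := T_lower r π _
      _ ≤ 2 * ‖T r π x‖ := by
        have := hN x
        linarith
      _ ≤ 4 * ‖x‖ := by
        have := T_upper r π x
        linarith
  let C0 : Set (Ix Γ) := insert .star {i | y i ≠ 0}
  have hC0 : C0.Countable := (countable_support y).insert _
  let U' : Set (Ix Γ) := {i | P (ev i) ≠ 0 ∧ ∀ j ∈ C0, P (ev i) j = 0}
  have hU' : ¬ U'.Countable := by
    intro hcon
    apply hU
    refine (hcon.union (hC0.biUnion (fun j _ => hcol j))).mono ?_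
    intro i hi
    by_cases h : ∀ j ∈ C0, P (ev i) j = 0
    · exact Or.inl ⟨hi, h⟩
    · push Not at h
      obtain ⟨j, hj, hne⟩ := h
      exact Or.inr (Set.mem_biUnion hj hne)
  have hcls : ∀ i ∈ U', ∃ p : ℕ × ℤ, Q r ((‖P (ev i)‖)⁻¹ • P (ev i)) p.1 p.2 := by
    intro i hi
    obtain ⟨n, k, hQ⟩ := exists_Q r hr ((‖P (ev i)‖)⁻¹ • P (ev i)) (by
      rw [norm_smul, norm_inv, norm_norm, inv_mul_cancel₀ (norm_ne_zero_iff.2 hi.1)]) (by
      rw [ZeroAtInftyContinuousMap.smul_apply, hi.2 _ (Set.mem_insert _ _), smul_zero])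
    exact ⟨(n, k), hQ⟩
  have hex : ∃ p : ℕ × ℤ, ¬ {i | i ∈ U' ∧ Q r ((‖P (ev i)‖)⁻¹ • P (ev i)) p.1 p.2}.Countable := by
    by_contra hcon
    push Not at hcon
    apply hU'
    refine (Set.countable_iUnion hcon).mono (fun i hi => ?_)
    obtain ⟨p, hp⟩ := hcls i hi
    exact Set.mem_iUnion.2 ⟨p, hi, hp⟩
  obtain ⟨⟨n, k⟩, hnk⟩ := hex
  obtain ⟨i, hi⟩ : {i | i ∈ U' ∧ Q r ((‖P (ev i)‖)⁻¹ • P (ev i)) n k}.Nonempty := by
    by_contra h
    rw [Set.not_nonempty_iff_eq_empty] at h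
    rw [h] at hnk
    exact hnk Set.countable_empty
  obtain ⟨i', hi', hdis⟩ : ∃ i' ∈ {i | i ∈ U' ∧ Q r ((‖P (ev i)‖)⁻¹ • P (ev i)) n k},
      ∀ j, P (ev i) j ≠ 0 → P (ev i') j = 0 := by
    by_contra hcon
    push Not at hcon
    apply hnk
    refine ((countable_support (P (ev i))).biUnion (fun j _ => hcol j)).mono (fun i' hi' => ?_)
    obtain ⟨j, hj, hne⟩ := hcon i' hi'
    exact Set.mem_biUnion hj hne
  have hfix : ∀ c : ℝ, ∀ x, P (c • P x) = c • P x := fun c x => by rw [map_smul, hPP]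
  refine two_vectors r π hd P hN (hfix _ (ev i)) (hfix _ (ev i')) hy ?_ ?_ ?_ ?_ ?_ ?_
    hi.2 hi'.2
  · intro j
    by_cases h : P (ev i) j = 0
    · left
      rw [ZeroAtInftyContinuousMap.smul_apply, h, smul_zero]
    · right
      rw [ZeroAtInftyContinuousMap.smul_apply, hdis j h, smul_zero]
  · intro j
    by_cases h : y j = 0
    · exact Or.inl h
    · right
      have hj : j ∈ C0 := Set.mem_insert_of_mem _ h
      rw [ZeroAtInftyContinuousMap.smul_apply, ZeroAtInftyContinuousMap.smul_apply, hi.1.2 j hj,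
        hi'.1.2 j hj, smul_zero, smul_zero]
      exact ⟨rfl, rfl⟩
  · rw [ZeroAtInftyContinuousMap.smul_apply, hi.1.2 _ (Set.mem_insert _ _), smul_zero]
  · rw [ZeroAtInftyContinuousMap.smul_apply, hi'.1.2 _ (Set.mem_insert _ _), smul_zero]
  · rw [norm_smul, norm_inv, norm_norm, inv_mul_cancel₀ (norm_ne_zero_iff.2 hi.1.1)]
  · rw [norm_smul, norm_inv, norm_norm, inv_mul_cancel₀ (norm_ne_zero_iff.2 hi'.1.1)]

end Pigeon


section Core

variable {Γ : Type} (r : Γ → ℝ) (π : Γ → Γ)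

theorem core (γ₀ : Γ) (hr : Function.Injective r)
    (hd : ∀ α β α' β', α ≠ β → |r α - r β| = |r α' - r β'| →
      (α' = α ∧ β' = β) ∨ (α' = β ∧ β' = α))
    (hπ : ∀ γ, ¬ (π ⁻¹' {γ}).Countable)
    (P : ℕ → C₀(Ix Γ, ℝ) →ₗ[ℝ] C₀(Ix Γ, ℝ)) (hN : ∀ n x, ‖T r π (P n x)‖ ≤ ‖T r π x‖)
    (h0 : ∀ n, P n ≠ 0) (hP : ∀ n m x, P n (P m x) = if n = m then P n x else 0)
    (hlim : ∀ x, Tendsto (fun N => ∑ n ∈ Finset.range N, P n x) atTop (𝓝 x)) : False := by
  have hunc : ∀ D : Set (Ix Γ), D.Countable → ∀ γ, ∃ δ, π δ = γ ∧ Ix.pt δ ∉ D := by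
    intro D hD γ
    by_contra hcon
    push Not at hcon
    apply hπ γ
    refine (hD.preimage_of_injOn (f := Ix.pt) ?_).mono (fun δ hδ => hcon δ hδ)
    intro a _ b _ hab
    exact Ix.pt.inj hab
  have hPP : ∀ n x, P n (P n x) = P n x := fun n x => by rw [hP, if_pos rfl]
  obtain ⟨n, hn⟩ : ∃ n, ¬ {i | P n (ev i) ≠ 0}.Countable := by
    by_contra hcon
    push Not at hcon
    obtain ⟨δ, -, hδ⟩ := hunc _ (Set.countable_iUnion hcon) γ₀
    have h1 : ∀ n, P n (ev (.pt δ)) = 0 := by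
      intro n
      by_contra hne
      exact hδ (Set.mem_iUnion.2 ⟨n, hne⟩)
    have h2 := hlim (ev (.pt δ))
    simp only [h1, Finset.sum_const_zero] at h2
    exact ev_ne_zero _ (tendsto_nhds_unique h2 tendsto_const_nhds)
  have hstar : ∀ y, P n y = 0 → y .star = 0 := fun y hy =>
    star_eq_zero r π hr hd (P n) (hN n) (hPP n) hn hy
  have hcount : ∀ m, m ≠ n → {i | P m (ev i) ≠ 0}.Countable := by
    intro m hm
    by_contra hcon
    have h1 := star_eq_zero r π hr hd (P m) (hN m) (hPP m) hcon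
      (y := P n (ev .star)) (by rw [hP, if_neg hm])
    have h2 := hstar (ev .star - P n (ev .star)) (by rw [map_sub, hPP, sub_self])
    rw [ZeroAtInftyContinuousMap.sub_apply, h1, ev_self] at h2
    norm_num at h2
  have hfix : ∀ i, i ∉ (⋃ m : {m // m ≠ n}, {i | P m (ev i) ≠ 0}) → P n (ev i) = ev i := by
    intro i hi
    have h1 : ∀ m, m ≠ n → P m (ev i) = 0 := by
      intro m hm
      by_contra hne
      exact hi (Set.mem_iUnion.2 ⟨⟨m, hm⟩, hne⟩)
    have h2 : Tendsto (fun N => ∑ k ∈ Finset.range N, P k (ev i)) atTop (𝓝 (P n (ev i))) := by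
      apply tendsto_atTop_of_eventually_const (i₀ := n + 1)
      intro N hN
      rw [Finset.sum_eq_single n]
      · exact fun m _ hm => h1 m hm
      · intro h
        rw [Finset.mem_range] at h
        omega
    exact tendsto_nhds_unique h2 (hlim _)
  obtain ⟨x, hx⟩ : ∃ x, P (n + 1) x ≠ 0 := by
    by_contra hcon
    push Not at hcon
    exact h0 (n + 1) (LinearMap.ext hcon)
  have hy : P n (P (n + 1) x) = 0 := by rw [hP, if_neg (by omega)]
  obtain ⟨γ, hγ⟩ : ∃ γ, P (n + 1) x (.pt γ) ≠ 0 := by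
    by_contra hcon
    push Not at hcon
    apply hx
    ext j
    cases j with
    | star => exact hstar _ hy
    | pt γ => exact hcon γ
  obtain ⟨δ, hδ, hδD⟩ := hunc ((⋃ m : {m // m ≠ n}, {i | P m (ev i) ≠ 0}) ∪
    {i | P (n + 1) x i ≠ 0}) ((Set.countable_iUnion (fun m : {m // m ≠ n} => hcount m.1 m.2)).union
      (countable_support _)) γ
  rw [Set.mem_union, not_or] at hδD
  obtain ⟨hδ1, hδ2⟩ := hδD
  simp only [Set.mem_ofPred_eq, not_not] at hδ2
  have hne : γ ≠ δ := by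
    rintro rfl
    exact hγ hδ2
  have hpt : ∀ α, α ≠ δ → (ev (Ix.pt δ) : C₀(Ix Γ, ℝ)) (.pt α) = 0 := fun α hα =>
    ev_ne (fun h => hα (Ix.pt.inj h))
  have hst : (ev (Ix.pt δ) : C₀(Ix Γ, ℝ)) .star = 0 := ev_ne (by simp)
  refine key' r π (P n) (hN n) (hfix _ hδ1) hy (m := 1) (c0 := 7 / 10)
    (b := (1 / 10) * P (n + 1) x (.pt γ)) one_pos (by norm_num) (by simpa using hγ) ?_
    ⟨.pt δ, ?_⟩
  · intro j
    cases j with
    | star =>
      left
      simp only [fn]
      rw [hst]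
      norm_num
    | pt α =>
      by_cases hα : α = δ
      · right
        subst hα
        simp only [fn]
        rw [hδ, ev_self, hpt γ hne, hδ2]
        constructor <;> ring
      · left
        simp only [fn]
        rw [hpt α hα]
        by_cases h : π α = δ
        · rw [h, ev_self]; norm_num
        · rw [hpt _ h]; norm_num
    | pair α β =>
      left
      simp only [fn]
      rw [hst]
      have hW0 := W_nonneg r α β
      have hW7 := W_le r α β
      by_cases hαβ : α = β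
      · have : W r α β = 0 := by unfold W; rw [if_pos hαβ]
        rw [this]; norm_num
      · by_cases hα : α = δ
        · have hβ : β ≠ δ := fun h => hαβ (hα.trans h.symm)
          rw [hα, ev_self, hpt β hβ, ← hα, add_zero, mul_one, mul_zero, add_zero,
            abs_of_nonneg hW0]
          exact hW7
        · rw [hpt α hα]
          by_cases hβ : β = δ
          · rw [hβ, ev_self, ← hβ, zero_add, mul_one, mul_zero, add_zero, abs_of_nonneg hW0]
            exact hW7
          · rw [hpt β hβ]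
            norm_num
  · simp only [fn]
    rw [hδ, ev_self, hpt γ hne]
    ring

end Core

theorem exists_data : ∃ (Γ : Type) (r : Γ → ℝ) (π : Γ → Γ), Nonempty Γ ∧ Function.Injective r ∧
    (∀ α β α' β', α ≠ β → |r α - r β| = |r α' - r β'| →
      (α' = α ∧ β' = β) ∨ (α' = β ∧ β' = α)) ∧
    (∀ γ, ¬ (π ⁻¹' {γ}).Countable) ∧ ∃ f : Ix Γ → ℕ, Function.Surjective f := by
  classical
  let b := Module.Basis.ofVectorSpace ℚ ℝ
  have hcard : Cardinal.mk (Module.Basis.ofVectorSpaceIndex ℚ ℝ) = Cardinal.continuum := by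
    rw [b.mk_eq_rank'', Real.rank_rat_real]
  have hcard2 : Cardinal.mk (Module.Basis.ofVectorSpaceIndex ℚ ℝ × Module.Basis.ofVectorSpaceIndex ℚ ℝ) =
      Cardinal.continuum := by
    rw [Cardinal.mk_prod, Cardinal.lift_id, hcard, Cardinal.continuum_mul_self]
  obtain ⟨e⟩ := Cardinal.eq.1 (hcard.trans hcard2.symm)
  have hunc : ¬ Countable (Module.Basis.ofVectorSpaceIndex ℚ ℝ) := by
    intro h
    have h1 := Cardinal.mk_le_aleph0_iff.2 h
    rw [hcard] at h1
    exact absurd (lt_of_lt_of_le Cardinal.aleph0_lt_continuum h1) (lt_irrefl _)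
  have hinf : Infinite (Module.Basis.ofVectorSpaceIndex ℚ ℝ) := by
    by_contra h
    rw [not_infinite_iff_finite] at h
    exact hunc inferInstance
  have hdiff : ∀ α β α' β' : Module.Basis.ofVectorSpaceIndex ℚ ℝ, α ≠ β →
      ((α : ℝ) - β = α' - β') → α' = α ∧ β' = β := by
    intro α β α' β' hne h
    have hb : ∀ i, b i = (i : ℝ) := fun i => Module.Basis.ofVectorSpace_apply_self ℚ ℝ i
    have h1 : b.repr (b α - b β) = b.repr (b α' - b β') := by
      rw [hb, hb, hb, hb, h]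
    rw [map_sub, map_sub, b.repr_self, b.repr_self, b.repr_self, b.repr_self] at h1
    have h2 := DFunLike.congr_fun h1 α
    rw [Finsupp.sub_apply, Finsupp.sub_apply, Finsupp.single_eq_same, Finsupp.single_apply,
      Finsupp.single_apply, Finsupp.single_apply, if_neg hne.symm] at h2
    have h3 : α' = α := by
      by_contra h4
      rw [if_neg h4] at h2
      split_ifs at h2 <;> norm_num at h2
    refine ⟨h3, ?_⟩
    apply Subtype.ext
    rw [h3] at h
    linarith
  refine ⟨Module.Basis.ofVectorSpaceIndex ℚ ℝ, fun i => (i : ℝ), fun i => (e i).1, inferInstance,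
    Subtype.val_injective, ?_, ?_, ?_⟩
  · intro α β α' β' hne h
    rcases abs_eq_abs.1 h with h | h
    · exact Or.inl (hdiff α β α' β' hne h)
    · right
      have h1 := hdiff α β β' α' hne (by rw [h]; ring)
      exact ⟨h1.2, h1.1⟩
  · intro γ hcon
    apply hunc
    have h1 : Function.Injective (fun i : Module.Basis.ofVectorSpaceIndex ℚ ℝ =>
        (⟨e.symm (γ, i), by simp⟩ : ((fun i => (e i).1) ⁻¹' {γ} :
          Set (Module.Basis.ofVectorSpaceIndex ℚ ℝ)))) := by
      intro i j hij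
      have h2 := congrArg Subtype.val hij
      simp only at h2
      have h3 := e.symm.injective h2
      exact (Prod.mk.inj h3).2
    have := hcon.to_subtype
    exact h1.countable
  · obtain ⟨g, hg⟩ := Infinite.natEmbedding (Module.Basis.ofVectorSpaceIndex ℚ ℝ)
    refine ⟨Function.invFun (fun n => Ix.pt (g n)), ?_⟩
    apply Function.invFun_surjective
    intro a b hab
    exact hg (Ix.pt.inj hab)

section Restr

variable {I : Type} [TopologicalSpace I] [DiscreteTopology I] (f : I → ℕ)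

open Classical in
/-- Restriction to a fibre of `f`. -/
noncomputable def restr (n : ℕ) : C₀(I, ℝ) →ₗ[ℝ] C₀(I, ℝ) where
  toFun x := mk (fun i => if f i = n then x i else 0) (by
    intro ε hε
    refine (finite_ge x hε).subset (fun i hi => ?_)
    simp only [Set.mem_ofPred_eq] at hi ⊢
    split_ifs at hi with h
    · exact hi
    · rw [abs_zero] at hi
      exact absurd hi (not_le.2 hε))
  map_add' x y := by
    ext i
    simp only [mk_apply, ZeroAtInftyContinuousMap.add_apply]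
    split_ifs <;> simp
  map_smul' c x := by
    ext i
    simp only [mk_apply, ZeroAtInftyContinuousMap.smul_apply, RingHom.id_apply]
    split_ifs <;> simp

theorem restr_apply (n : ℕ) (x : C₀(I, ℝ)) (i : I) :
    restr f n x i = if f i = n then x i else 0 := by
  simp [restr]

theorem restr_norm_le (n : ℕ) (x : C₀(I, ℝ)) : ‖restr f n x‖ ≤ 1 * ‖x‖ := by
  rw [one_mul]
  refine norm_le_of (norm_nonneg _) (fun i => ?_)
  rw [restr_apply]
  split_ifs
  · exact coord_le x i
  · rw [abs_zero]; exact norm_nonneg _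

theorem restr_restr (n m : ℕ) (x : C₀(I, ℝ)) :
    restr f n (restr f m x) = if n = m then restr f n x else 0 := by
  ext i
  rw [restr_apply, restr_apply]
  by_cases h : n = m
  · subst h
    rw [if_pos rfl, restr_apply]
    split_ifs <;> rfl
  · rw [if_neg h, ZeroAtInftyContinuousMap.zero_apply]
    by_cases h1 : f i = n
    · rw [if_pos h1, if_neg (fun h2 => h (h1.symm.trans h2))]
    · rw [if_neg h1]

theorem restr_sum (N : ℕ) (x : C₀(I, ℝ)) (i : I) :
    (∑ n ∈ Finset.range N, restr f n x) i = if f i < N then x i else 0 := by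
  induction N with
  | zero => simp
  | succ N ih =>
    rw [Finset.sum_range_succ, ZeroAtInftyContinuousMap.add_apply, ih, restr_apply]
    rcases lt_trichotomy (f i) N with h | h | h
    · rw [if_pos h, if_neg h.ne, if_pos (by omega), add_zero]
    · rw [if_neg (by omega), if_pos h, if_pos (by omega), zero_add]
    · rw [if_neg (by omega), if_neg (by omega), if_neg (by omega), add_zero]

theorem restr_tendsto (x : C₀(I, ℝ)) :
    Tendsto (fun N => ∑ n ∈ Finset.range N, restr f n x) atTop (𝓝 x) := by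
  rw [Metric.tendsto_atTop]
  intro ε hε
  obtain ⟨M, hM⟩ := ((finite_ge x (half_pos hε)).image f).bddAbove
  refine ⟨M + 1, fun N hN => ?_⟩
  rw [dist_eq_norm]
  refine lt_of_le_of_lt (norm_le_of (C := ε / 2) (by positivity) (fun i => ?_)) (half_lt_self hε)
  rw [ZeroAtInftyContinuousMap.sub_apply, restr_sum]
  split_ifs with h
  · rw [sub_self, abs_zero]; positivity
  · rw [zero_sub, abs_neg]
    by_contra hcon
    have h1 := hM (Set.mem_image_of_mem f (show i ∈ {i | ε / 2 ≤ |x i|} from (not_le.1 hcon).le))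
    omega

theorem restr_ne_zero (hf : Function.Surjective f) (n : ℕ) : restr f n ≠ 0 := by
  obtain ⟨i, hi⟩ := hf n
  intro h
  have h1 := restr_apply f n (ev i) i
  rw [h, if_pos hi, ev_self] at h1
  simp at h1

end Restr


section Transport

variable {X E : Type} [NormedAddCommGroup X] [NormedSpace ℝ X] [NormedAddCommGroup E]
  [NormedSpace ℝ E]

theorem transport (e : X ≃L[ℝ] E) (R : ℕ → X →ₗ[ℝ] X) (hR : ∀ n x, ‖R n x‖ ≤ 1 * ‖x‖)
    (h0 : ∀ n, R n ≠ 0) (h1 : ∀ n m x, R n (R m x) = if n = m then R n x else 0)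
    (h2 : ∀ x, Tendsto (fun N => ∑ n ∈ Finset.range N, R n x) atTop (𝓝 x)) :
    ∃ v : ℕ → (E →L[ℝ] E),
        (∀ n, v n ≠ 0) ∧
        (∀ n m, (v n).comp (v m) = if n = m then v n else 0) ∧
        (∀ x : E, Tendsto (fun N => ∑ n ∈ Finset.range N, v n x) atTop (𝓝 x)) := by
  let v : ℕ → (E →L[ℝ] E) := fun n => (e : X →L[ℝ] E).comp
    (((R n).mkContinuous 1 (hR n)).comp (e.symm : E →L[ℝ] X))
  have hv : ∀ n x, v n x = e (R n (e.symm x)) := fun n x => rfl
  refine ⟨v, ?_, ?_, ?_⟩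
  · intro n h
    apply h0 n
    ext x
    have h3 := hv n (e x)
    rw [h, e.symm_apply_apply] at h3
    have h4 : e (R n x) = 0 := h3.symm
    rw [LinearMap.zero_apply]
    exact e.map_eq_zero_iff.1 h4
  · intro n m
    ext x
    rw [ContinuousLinearMap.comp_apply, hv, hv, e.symm_apply_apply, h1]
    split_ifs with h
    · rfl
    · rw [map_zero]; rfl
  · intro x
    have h3 := (e.continuous.tendsto _).comp (h2 (e.symm x))
    rw [e.apply_symm_apply] at h3
    refine h3.congr (fun N => ?_)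
    rw [Function.comp_apply, map_sum]
    exact Finset.sum_congr rfl (fun n _ => (hv n x).symm)

theorem transport_symm (e : X ≃L[ℝ] E) (w : ℕ → (E →L[ℝ] E)) (h0 : ∀ n, w n ≠ 0)
    (h1 : ∀ n m, (w n).comp (w m) = if n = m then w n else 0)
    (h2 : ∀ x : E, Tendsto (fun N => ∑ n ∈ Finset.range N, w n x) atTop (𝓝 x))
    (h3 : ∀ n, ‖w n‖ = 1) :
    ∃ P : ℕ → X →ₗ[ℝ] X, (∀ n x, ‖e (P n x)‖ ≤ ‖e x‖) ∧ (∀ n, P n ≠ 0) ∧
      (∀ n m x, P n (P m x) = if n = m then P n x else 0) ∧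
      (∀ x, Tendsto (fun N => ∑ n ∈ Finset.range N, P n x) atTop (𝓝 x)) := by
  let P : ℕ → X →ₗ[ℝ] X := fun n => (((e.symm : E →L[ℝ] X).comp ((w n).comp
    (e : X →L[ℝ] E)) : X →L[ℝ] X) : X →ₗ[ℝ] X)
  have hP : ∀ n x, P n x = e.symm (w n (e x)) := fun n x => rfl
  refine ⟨P, ?_, ?_, ?_, ?_⟩
  · intro n x
    rw [hP, e.apply_symm_apply]
    have h4 := (w n).le_opNorm (e x)
    rwa [h3, one_mul] at h4
  · intro n h
    apply h0 n
    ext x
    have h4 := hP n (e.symm x)
    rw [h, e.apply_symm_apply] at h4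
    have h5 : e.symm (w n x) = 0 := h4.symm
    rw [zero_apply]
    exact e.symm.map_eq_zero_iff.1 h5
  · intro n m x
    have h4 := congrArg (fun A : E →L[ℝ] E => A (e x)) (h1 n m)
    simp only [ContinuousLinearMap.comp_apply] at h4
    rw [hP, hP, e.apply_symm_apply, h4]
    split_ifs with h
    · rfl
    · rw [zero_apply, map_zero]
  · intro x
    have h4 := (e.symm.continuous.tendsto _).comp (h2 (e x))
    rw [e.symm_apply_apply] at h4
    refine h4.congr (fun N => ?_)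
    rw [Function.comp_apply, map_sum]
    exact Finset.sum_congr rfl (fun n _ => (hP n x).symm)

end Transport


section Gen

variable {X Y : Type} [NormedAddCommGroup X] [NormedSpace ℝ X] [CompleteSpace X]
  [NormedAddCommGroup Y] [NormedSpace ℝ Y]

omit [CompleteSpace X] in
theorem exists_equiv (T : X →ₗ[ℝ] Y) (h1 : ∀ x, ‖T x‖ ≤ 2 * ‖x‖) (h2 : ∀ x, ‖x‖ ≤ 2 * ‖T x‖) :
    ∃ e : X ≃L[ℝ] LinearMap.range T, ∀ x, ‖e x‖ = ‖T x‖ := by
  have hinj : Function.Injective T := by
    intro x y hxy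
    have h3 := h2 (x - y)
    rw [map_sub, hxy, sub_self, norm_zero, mul_zero] at h3
    exact sub_eq_zero.1 (norm_le_zero_iff.1 h3)
  let e0 : X ≃ₗ[ℝ] LinearMap.range T := LinearEquiv.ofInjective T hinj
  have he : ∀ x, ‖e0 x‖ = ‖T x‖ := fun x => by
    rw [Submodule.coe_norm, LinearEquiv.ofInjective_apply]
  refine ⟨e0.toContinuousLinearEquivOfBounds 2 2 (fun x => ?_) (fun y => ?_), fun x => ?_⟩
  · rw [he]
    exact h1 x
  · have h3 := h2 (e0.symm y)
    rw [← he, e0.apply_symm_apply] at h3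
    exact h3
  · exact he x

theorem complete_range (T : X →ₗ[ℝ] Y) (h1 : ∀ x, ‖T x‖ ≤ 2 * ‖x‖)
    (h2 : ∀ x, ‖x‖ ≤ 2 * ‖T x‖) : CompleteSpace (LinearMap.range T) := by
  obtain ⟨e, -⟩ := exists_equiv T h1 h2
  have h := e.isUniformEmbedding
  exact (completeSpace_congr (e := e.toEquiv) h).1 inferInstance

theorem final_step (H : ∀ (𝕜 : Type) [RCLike 𝕜] (E : Type) [NormedAddCommGroup E] [NormedSpace 𝕜 E]
      [CompleteSpace E],
      (∃ v : ℕ → (E →L[𝕜] E),
        (∀ n, v n ≠ 0) ∧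
        (∀ n m, (v n).comp (v m) = if n = m then v n else 0) ∧
        (∀ x : E, Tendsto (fun N => ∑ n ∈ Finset.range N, v n x) atTop (𝓝 x))) →
      ∃ w : ℕ → (E →L[𝕜] E),
        (∀ n, w n ≠ 0) ∧
        (∀ n m, (w n).comp (w m) = if n = m then w n else 0) ∧
        (∀ x : E, Tendsto (fun N => ∑ n ∈ Finset.range N, w n x) atTop (𝓝 x)) ∧
        (∀ n, ‖w n‖ = 1))
    (T : X →ₗ[ℝ] Y) (h1 : ∀ x, ‖T x‖ ≤ 2 * ‖x‖) (h2 : ∀ x, ‖x‖ ≤ 2 * ‖T x‖)
    (R : ℕ → X →ₗ[ℝ] X) (hR : ∀ n x, ‖R n x‖ ≤ 1 * ‖x‖)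
    (h0 : ∀ n, R n ≠ 0) (h3 : ∀ n m x, R n (R m x) = if n = m then R n x else 0)
    (h4 : ∀ x, Tendsto (fun N => ∑ n ∈ Finset.range N, R n x) atTop (𝓝 x)) :
    ∃ P : ℕ → X →ₗ[ℝ] X, (∀ n x, ‖T (P n x)‖ ≤ ‖T x‖) ∧ (∀ n, P n ≠ 0) ∧
      (∀ n m x, P n (P m x) = if n = m then P n x else 0) ∧
      (∀ x, Tendsto (fun N => ∑ n ∈ Finset.range N, P n x) atTop (𝓝 x)) := by
  obtain ⟨e, he⟩ := exists_equiv T h1 h2
  have hcomp := complete_range T h1 h2
  obtain ⟨w, hw0, hw1, hw2, hw3⟩ := H ℝ (LinearMap.range T) (transport e R hR h0 h3 h4)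
  obtain ⟨P, hP1, hP2, hP3, hP4⟩ := transport_symm e w hw0 hw1 hw2 hw3
  refine ⟨P, fun n x => ?_, hP2, hP3, hP4⟩
  rw [← he, ← he]
  exact hP1 n x

end Gen

theorem main :
    ¬ (∀ (𝕜 : Type) [RCLike 𝕜] (E : Type) [NormedAddCommGroup E] [NormedSpace 𝕜 E]
      [CompleteSpace E],
      (∃ v : ℕ → (E →L[𝕜] E),
        (∀ n, v n ≠ 0) ∧
        (∀ n m, (v n).comp (v m) = if n = m then v n else 0) ∧
        (∀ x : E, Tendsto (fun N => ∑ n ∈ Finset.range N, v n x) atTop (𝓝 x))) →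
      ∃ w : ℕ → (E →L[𝕜] E),
        (∀ n, w n ≠ 0) ∧
        (∀ n m, (w n).comp (w m) = if n = m then w n else 0) ∧
        (∀ x : E, Tendsto (fun N => ∑ n ∈ Finset.range N, w n x) atTop (𝓝 x)) ∧
        (∀ n, ‖w n‖ = 1)) := by
  intro H
  obtain ⟨Γ, r, π, ⟨γ₀⟩, hr, hd, hπ, f, hf⟩ := exists_data
  obtain ⟨P, hP1, hP2, hP3, hP4⟩ := final_step H (T r π) (T_upper r π) (T_lower r π)
    (restr f) (restr_norm_le f) (restr_ne_zero f hf) (restr_restr f) (restr_tendsto f)
  exact core r π γ₀ hr hd hπ P hP1 hP2 hP3 hP4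

end Pool.Agent.Helper961.NormalDec
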